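import Pool.Agent.H705.RO.Stm3

/-! # AMZ: the amplitudes `2 / |ρ_n|` -/

set_option autoImplicit false

namespace Pool.Agent.H874.RO

open Filter Topology Finset Pool.Agent.H705.RO

/-- `s (n+1)^(-s-1) ≤ n^(-s) - (n+1)^(-s)` -/
theorem step {s : ℝ} (hs : 0 < s) {n : ℕ} (hn : 1 ≤ n) :
    s * ((n : ℝ) + 1) ^ (-s - 1) ≤ (n : ℝ) ^ (-s) - ((n : ℝ) + 1) ^ (-s) := by
  have hn0 : (0 : ℝ) < n := by exact_mod_cast hn
  have hn1 : (0 : ℝ) < (n : ℝ) + 1 := by linarith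
  have hq : (0 : ℝ) < ((n : ℝ) + 1) / n := div_pos hn1 hn0
  -- the logarithm
  have hlog : 1 / ((n : ℝ) + 1) ≤ Real.log (((n : ℝ) + 1) / n) := by
    have h := Real.one_sub_inv_le_log_of_pos hq
    have e : 1 - (((n : ℝ) + 1) / n)⁻¹ = 1 / ((n : ℝ) + 1) := by
      field_simp
      ring
    rwa [e] at h
  have hexp : 1 + s / ((n : ℝ) + 1) ≤ (((n : ℝ) + 1) / n) ^ s := by
    rw [Real.rpow_def_of_pos hq]
    have h1 := Real.add_one_le_exp (Real.log (((n : ℝ) + 1) / n) * s)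
    have h2 : s / ((n : ℝ) + 1) ≤ Real.log (((n : ℝ) + 1) / n) * s := by
      have h3 := mul_le_mul_of_nonneg_right hlog hs.le
      calc s / ((n : ℝ) + 1) = 1 / ((n : ℝ) + 1) * s := by ring
        _ ≤ _ := h3
    linarith
  have hA : ((n : ℝ) + 1) ^ (-s - 1) = ((n : ℝ) + 1) ^ (-s) / ((n : ℝ) + 1) := by
    rw [Real.rpow_sub hn1, Real.rpow_one]
  have hB : (n : ℝ) ^ (-s) = ((n : ℝ) + 1) ^ (-s) * (((n : ℝ) + 1) / n) ^ s := by
    rw [Real.div_rpow hn1.le hn0.le, Real.rpow_neg hn0.le, Real.rpow_neg hn1.le]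
    have h1 : ((n : ℝ) + 1) ^ s ≠ 0 := (Real.rpow_pos_of_pos hn1 s).ne'
    field_simp
  have hP : 0 < ((n : ℝ) + 1) ^ (-s) := Real.rpow_pos_of_pos hn1 _
  rw [hA, hB]
  have h := mul_le_mul_of_nonneg_left hexp hP.le
  have e : ((n : ℝ) + 1) ^ (-s) * (1 + s / ((n : ℝ) + 1)) =
      ((n : ℝ) + 1) ^ (-s) + s * (((n : ℝ) + 1) ^ (-s) / ((n : ℝ) + 1)) := by ring
  rw [e] at h
  linarith

/-- the tail sums -/
theorem tail {s : ℝ} (hs : 0 < s) {N : ℕ} (hN : 1 ≤ N) (M : ℕ) (hNM : N ≤ M) :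
    s * ∑ n ∈ Ico N M, ((n : ℝ) + 1) ^ (-s - 1) ≤ (N : ℝ) ^ (-s) - (M : ℝ) ^ (-s) := by
  induction M, hNM using Nat.le_induction with
  | base => simp
  | succ M hM ih =>
    rw [Finset.sum_Ico_succ_top hM, mul_add]
    have h := step hs (hN.trans hM)
    push_cast
    linarith

theorem norm_rh (γ : ℝ) : |γ| ≤ ‖rh γ‖ := by
  have h := Complex.abs_im_le_norm (rh γ)
  have e : (rh γ).im = γ := by
    simp [rh]
  rwa [e] at h

theorem T_AMZ : P_AMZ := by
  intro c A γ hc hO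
  have hγ : ∀ n, 0 < γ n := fun n => lt_of_lt_of_le one_pos (hO n).1
  have hr : ∀ n, γ n ≤ ‖rh (γ n)‖ := fun n => (le_abs_self _).trans (norm_rh (γ n))
  have hr0 : ∀ n, 0 < ‖rh (γ n)‖ := fun n => (hγ n).trans_le (hr n)
  have ham : ∀ n, am γ n ≤ 2 / γ n := fun n =>
    div_le_div_of_nonneg_left (by norm_num) (hγ n) (hr n)
  have ham0 : ∀ n, 0 ≤ am γ n := fun n => div_nonneg (by norm_num) (hr0 n).le
  refine ⟨⟨ham0, ?_⟩, fun n => ⟨(ham n).trans ?_, ?_⟩⟩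
  · intro ε hε
    set e : ℝ := min ε (1 / 2) with he
    have he0 : 0 < e := lt_min hε (by norm_num)
    have he1 : e ≤ 1 / 2 := min_le_right _ _
    have hee : e ≤ ε := min_le_left _ _
    set d : ℝ := e / 2 with hd
    have hd0 : 0 < d := by positivity
    set s : ℝ := 1 - e with hs
    have hs0 : 0 < s := by rw [hs]; linarith
    refine ⟨(2 / (c * d)) ^ 2 / s, fun N M hN hNM => ?_⟩
    -- one term
    have hterm : ∀ n : ℕ, am γ n ^ 2 ≤ (2 / (c * d)) ^ 2 * ((n : ℝ) + 1) ^ (-s - 1) := by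
      intro n
      have hn2 : (0 : ℝ) < (n : ℝ) + 2 := by positivity
      have hn1 : (0 : ℝ) < (n : ℝ) + 1 := by positivity
      have hL : 0 < Real.log ((n : ℝ) + 2) := Real.log_pos (by
        have : (0 : ℝ) ≤ n := Nat.cast_nonneg n
        linarith)
      have hL2 : Real.log ((n : ℝ) + 2) ≤ ((n : ℝ) + 2) ^ d / d := Real.log_le_rpow_div hn2.le hd0
      have h1 : am γ n ≤ 2 / (c * d) * (((n : ℝ) + 2) ^ (d - 1)) := by
        have h2 : 2 / γ n ≤ 2 / (c * ((n : ℝ) + 2) / Real.log ((n : ℝ) + 2)) :=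
          div_le_div_of_nonneg_left (by norm_num) (by positivity) (hO n).2.1
        have h3 : 2 / (c * ((n : ℝ) + 2) / Real.log ((n : ℝ) + 2)) =
            2 / (c * ((n : ℝ) + 2)) * Real.log ((n : ℝ) + 2) := by
          field_simp
        have h4 : 2 / (c * ((n : ℝ) + 2)) * Real.log ((n : ℝ) + 2) ≤
            2 / (c * ((n : ℝ) + 2)) * (((n : ℝ) + 2) ^ d / d) :=
          mul_le_mul_of_nonneg_left hL2 (by positivity)
        have h5 : 2 / (c * ((n : ℝ) + 2)) * (((n : ℝ) + 2) ^ d / d) =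
            2 / (c * d) * (((n : ℝ) + 2) ^ (d - 1)) := by
          rw [Real.rpow_sub hn2, Real.rpow_one]
          field_simp
        calc am γ n ≤ 2 / γ n := ham n
          _ ≤ _ := h2
          _ = _ := h3
          _ ≤ _ := h4
          _ = _ := h5
      calc am γ n ^ 2 ≤ (2 / (c * d) * (((n : ℝ) + 2) ^ (d - 1))) ^ 2 :=
            pow_le_pow_left₀ (ham0 n) h1 2
        _ = (2 / (c * d)) ^ 2 * ((n : ℝ) + 2) ^ (-s - 1) := by
            rw [mul_pow]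
            congr 1
            rw [← Real.rpow_natCast, ← Real.rpow_mul hn2.le]
            congr 1
            rw [hs, hd]
            push_cast
            ring
        _ ≤ (2 / (c * d)) ^ 2 * ((n : ℝ) + 1) ^ (-s - 1) := by
            refine mul_le_mul_of_nonneg_left ?_ (by positivity)
            exact Real.rpow_le_rpow_of_nonpos hn1 (by linarith) (by linarith)
    have hN1 : (1 : ℝ) ≤ N := by exact_mod_cast hN
    have hM0 : 0 ≤ (M : ℝ) ^ (-s) := Real.rpow_nonneg (Nat.cast_nonneg M) _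
    have htail := tail hs0 hN M hNM
    have hexp : (N : ℝ) ^ (-s) ≤ (N : ℝ) ^ (-1 + ε) :=
      Real.rpow_le_rpow_of_exponent_le hN1 (by rw [hs]; linarith)
    have hsum : ∑ n ∈ Ico N M, ((n : ℝ) + 1) ^ (-s - 1) ≤ (N : ℝ) ^ (-1 + ε) / s := by
      rw [le_div_iff₀ hs0]
      linarith
    calc ∑ n ∈ Ico N M, am γ n ^ 2
        ≤ ∑ n ∈ Ico N M, (2 / (c * d)) ^ 2 * ((n : ℝ) + 1) ^ (-s - 1) :=
          Finset.sum_le_sum fun n _ => hterm n
      _ = (2 / (c * d)) ^ 2 * ∑ n ∈ Ico N M, ((n : ℝ) + 1) ^ (-s - 1) := by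
          rw [Finset.mul_sum]
      _ ≤ (2 / (c * d)) ^ 2 * ((N : ℝ) ^ (-1 + ε) / s) :=
          mul_le_mul_of_nonneg_left hsum (by positivity)
      _ = (2 / (c * d)) ^ 2 / s * (N : ℝ) ^ (-1 + ε) := by ring
  · rw [div_le_iff₀ (hγ n)]
    linarith [(hO n).1]
  · calc am γ n * γ n ≤ 2 / γ n * γ n := mul_le_mul_of_nonneg_right (ham n) (hγ n).le
      _ = 2 := by
        have := (hγ n).ne'
        field_simp

end Pool.Agent.H874.RO
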