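import Pool.Agent.H705.RO.Stm4

/-! # SQD: a sum of squares over a dyadic block -/

set_option autoImplicit false

namespace Pool.Agent.H874.RO.SQD

open Filter Topology Finset Pool.Agent.H705.RO

/-- `(γ + 1) / 3 ≤ |1/2 + i γ|` for `γ ≥ 0` -/
theorem third_le {γ : ℝ} (hγ : 0 ≤ γ) : (γ + 1) / 3 ≤ ‖rh γ‖ := by
  have h1 := Complex.abs_im_le_norm (rh γ)
  have h2 := Complex.abs_re_le_norm (rh γ)
  have e1 : (rh γ).im = γ := by simp [rh]
  have e2 : (rh γ).re = 1 / 2 := by simp [rh]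
  rw [e1, abs_of_nonneg hγ] at h1
  rw [e2, abs_of_nonneg (by norm_num)] at h2
  by_cases h : γ ≤ 1 / 2
  · linarith
  · push Not at h
    linarith

/-- the bound for the logarithm -/
theorem log_le {j l q n : ℕ} (hq : q ≤ 2 ^ (j + 1)) (hn : n + 2 ≤ 2 ^ (l + 1)) :
    Real.log (((q : ℝ) + 1) * ((n : ℝ) + 2)) ≤ (j : ℝ) + l + 4 := by
  have h1 : (q : ℝ) + 1 ≤ 2 ^ (j + 2) := by
    have h : q + 1 ≤ 2 ^ (j + 2) := by
      have h3 : 1 ≤ 2 ^ (j + 1) := Nat.one_le_two_pow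
      calc q + 1 ≤ 2 ^ (j + 1) + 2 ^ (j + 1) := by omega
        _ = 2 ^ (j + 2) := by ring
    exact_mod_cast h
  have h2 : (n : ℝ) + 2 ≤ 2 ^ (l + 2) := by
    have h : n + 2 ≤ 2 ^ (l + 2) := by
      calc n + 2 ≤ 2 ^ (l + 1) := hn
        _ ≤ 2 ^ (l + 2) := Nat.pow_le_pow_right (by norm_num) (by omega)
    exact_mod_cast h
  have h0 : (0 : ℝ) < ((q : ℝ) + 1) * ((n : ℝ) + 2) := by positivity
  have h3 : ((q : ℝ) + 1) * ((n : ℝ) + 2) ≤ 2 ^ (j + l + 4) := by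
    calc ((q : ℝ) + 1) * ((n : ℝ) + 2) ≤ 2 ^ (j + 2) * 2 ^ (l + 2) :=
          mul_le_mul h1 h2 (by positivity) (by positivity)
      _ = 2 ^ (j + l + 4) := by
          rw [← pow_add]
          congr 1
          omega
  calc Real.log (((q : ℝ) + 1) * ((n : ℝ) + 2)) ≤ Real.log ((2 : ℝ) ^ (j + l + 4)) :=
        Real.log_le_log h0 h3
    _ = ((j + l + 4 : ℕ) : ℝ) * Real.log 2 := by rw [Real.log_pow]
    _ ≤ ((j + l + 4 : ℕ) : ℝ) * 1 := by
        refine mul_le_mul_of_nonneg_left ?_ (Nat.cast_nonneg _)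
        have := Real.log_two_lt_d9
        linarith
    _ = (j : ℝ) + l + 4 := by push_cast; ring

theorem T_SQD : P_SQD := by
  intro c hc
  refine ⟨36 / c ^ 2, by positivity, ?_⟩
  intro d γ hO j l q M x hq1 hq hd hx hM
  have hdq : (0 : ℝ) < (d q : ℝ) := by exact_mod_cast hd
  have hx0 : 0 ≤ x := by linarith
  set T : ℝ := (j : ℝ) + l + 4 with hT
  have hT0 : 0 < T := by positivity
  have h2l : (0 : ℝ) < 2 ^ l := by positivity
  -- one term
  have hterm : ∀ n ∈ Ico (2 ^ l - 1) M, ∀ i ∈ range (d q),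
      (2 * Real.sqrt x / (‖rh (γ q i n)‖ * d q)) ^ 2 ≤
        36 * x * T ^ 2 / (c ^ 2 * (2 ^ l * 2 ^ l) * ((d q : ℝ) * d q)) := by
    intro n hn i hi
    rw [Finset.mem_Ico] at hn
    rw [Finset.mem_range] at hi
    have h1l : 1 ≤ 2 ^ l := Nat.one_le_two_pow
    have hn1 : 2 ^ l ≤ n + 1 := by omega
    have hn2 : n + 2 ≤ 2 ^ (l + 1) := by
      have h1 : 1 ≤ 2 ^ (l + 1) := Nat.one_le_two_pow
      omega
    have hn1' : (2 : ℝ) ^ l ≤ (n : ℝ) + 1 := by exact_mod_cast hn1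
    obtain ⟨hγ0, hγ⟩ := hO q i n hq1 hi
    have hL := log_le (j := j) (l := l) hq hn2
    have hL0 : 0 < Real.log (((q : ℝ) + 1) * ((n : ℝ) + 2)) := by
      apply Real.log_pos
      have hn0 : (0 : ℝ) ≤ n := Nat.cast_nonneg n
      have hq0 : (0 : ℝ) ≤ q := Nat.cast_nonneg q
      nlinarith
    -- `c 2^l / T ≤ γ + 1`
    have h4 : c * 2 ^ l / T ≤ γ q i n + 1 := by
      refine le_trans ?_ hγ
      refine div_le_div₀ (by positivity) ?_ hL0 hL
      exact mul_le_mul_of_nonneg_left hn1' hc.le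
    have h5 : c * 2 ^ l / (3 * T) ≤ ‖rh (γ q i n)‖ := by
      have h6 := third_le hγ0
      have h7 : c * 2 ^ l / (3 * T) = (c * 2 ^ l / T) / 3 := by
        field_simp
      rw [h7]
      linarith
    have h50 : 0 < c * 2 ^ l / (3 * T) := by positivity
    have h8 : 2 * Real.sqrt x / (‖rh (γ q i n)‖ * d q) ≤
        2 * Real.sqrt x / (c * 2 ^ l / (3 * T) * d q) := by
      refine div_le_div_of_nonneg_left (by positivity) (by positivity) ?_
      exact mul_le_mul_of_nonneg_right h5 hdq.le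
    have h9 : 0 ≤ 2 * Real.sqrt x / (‖rh (γ q i n)‖ * d q) := by positivity
    calc (2 * Real.sqrt x / (‖rh (γ q i n)‖ * d q)) ^ 2 ≤
          (2 * Real.sqrt x / (c * 2 ^ l / (3 * T) * d q)) ^ 2 := pow_le_pow_left₀ h9 h8 2
      _ = 36 * (Real.sqrt x * Real.sqrt x) * T ^ 2 /
            (c ^ 2 * (2 ^ l * 2 ^ l) * ((d q : ℝ) * d q)) := by
          field_simp
          ring
      _ = _ := by rw [Real.mul_self_sqrt hx0]
  have hB : 0 ≤ 36 * x * T ^ 2 / (c ^ 2 * (2 ^ l * 2 ^ l) * ((d q : ℝ) * d q)) := by positivity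
  set B : ℝ := 36 * x * T ^ 2 / (c ^ 2 * (2 ^ l * 2 ^ l) * ((d q : ℝ) * d q)) with hBdef
  have hcard : ((Ico (2 ^ l - 1) M).card : ℝ) ≤ 2 ^ l := by
    have h : (Ico (2 ^ l - 1) M).card ≤ 2 ^ l := by
      rw [Nat.card_Ico]
      have h1 : 2 ^ (l + 1) = 2 * 2 ^ l := by ring
      have h2 : 1 ≤ 2 ^ l := Nat.one_le_two_pow
      omega
    exact_mod_cast h
  calc ∑ n ∈ Ico (2 ^ l - 1) M, ∑ i ∈ range (d q), (2 * Real.sqrt x / (‖rh (γ q i n)‖ * d q)) ^ 2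
      ≤ ∑ n ∈ Ico (2 ^ l - 1) M, ∑ i ∈ range (d q), B :=
        Finset.sum_le_sum fun n hn => Finset.sum_le_sum fun i hi => hterm n hn i hi
    _ = ((Ico (2 ^ l - 1) M).card : ℝ) * ((d q : ℝ) * B) := by
        simp [Finset.sum_const, nsmul_eq_mul]
    _ ≤ 2 ^ l * ((d q : ℝ) * B) := mul_le_mul_of_nonneg_right hcard (by positivity)
    _ = 36 / c ^ 2 * x * T ^ 2 / (2 ^ l * d q) := by
        rw [hBdef]
        field_simp

end Pool.Agent.H874.RO.SQD
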